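import Pool.Agent.H98.SLN.Targets

/-!
# Board sln, row DEN: the density of the good boxes (helper46)

Problem `MP_65efe8_pr`.
-/

set_option autoImplicit false

open MeasureTheory ProbabilityTheory Filter Topology
open scoped ENNReal
open Pool.Agent.H95 Pool.Agent.H95.Cop
open Pool.Agent.H55.CG (pz VV Mo)
open Pool.Agent.H98.CE (pc WB HK OBJ)
open Pool.Agent.H96.Cop (ex pk Wn chargeLaw)
open Pool.Agent.H99.CE (NX)
open Pool.Agent.H98.SLN

namespace Pool.Agent.H46.SLN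

lemma den_card (N : ℕ) (hN : 1 ≤ N) :
    7200 * (N : ℝ) ^ 2 ≤ ((PP (240 * N) (60 * N) (120 * N)).card : ℝ) := by
  have h : (Finset.range (120 * N) ×ˢ Finset.range (60 * N)).card ≤
      (PP (240 * N) (60 * N) (120 * N)).card := by
    apply Finset.card_le_card_of_injOn (fun p => (p.1, p.1 + (60 * N - 1) + p.2))
    · intro p hp
      have hp1 := Finset.mem_product.mp (Finset.mem_coe.mp hp)
      have h1 := Finset.mem_range.mp hp1.1
      have h2 := Finset.mem_range.mp hp1.2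
      simp only [PP, Finset.coe_filter, Finset.mem_product, Finset.mem_range, Set.mem_ofPred_eq]
      omega
    · intro p _ p' _ hpp
      have h1 := congrArg Prod.fst hpp
      have h2 := congrArg Prod.snd hpp
      simp only at h1 h2
      apply Prod.ext h1
      omega
  rw [Finset.card_product, Finset.card_range, Finset.card_range] at h
  have h2 : ((120 * N * (60 * N) : ℕ) : ℝ) ≤ ((PP (240 * N) (60 * N) (120 * N)).card : ℝ) := by
    exact_mod_cast h
  push_cast at h2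
  nlinarith

lemma den_r : Real.exp (-1 / 50) ≤ 50 / 51 := by
  have h := Real.add_one_le_exp (1 / 50 : ℝ)
  have h1 : Real.exp (-1 / 50) = (Real.exp (1 / 50))⁻¹ := by
    rw [← Real.exp_neg]; norm_num
  rw [h1, inv_le_comm₀ (Real.exp_pos _) (by norm_num)]
  linarith

lemma den_pow (L : ℕ) : Real.exp (-1 / 50) ^ L = Real.exp (-((L : ℝ) / 50)) := by
  rw [← Real.exp_nat_mul]
  congr 1
  ring

/-- the second kind of bad pairs -/
lemma den_bad (N L : ℕ) (s : ℝ) (hN : 100 ≤ N) (hL : 60 * N ≤ L) (hs : s ≤ 255 / 1000) :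
    Real.exp (s * (3 * N + 63)) * Real.exp (-1 / 50) ^ L ≤ 1 / 8 := by
  rw [den_pow, ← Real.exp_add]
  have h1 : (100 : ℝ) ≤ N := by exact_mod_cast hN
  have h2 : 60 * (N : ℝ) ≤ L := by exact_mod_cast hL
  have h3 : s * (3 * N + 63) + -((L : ℝ) / 50) ≤ -3 := by
    have h4 : s * (3 * (N : ℝ) + 63) ≤ 255 / 1000 * (3 * N + 63) :=
      mul_le_mul_of_nonneg_right hs (by positivity)
    linarith
  refine le_trans (Real.exp_le_exp.mpr h3) ?_
  have h5 : (2 : ℝ) ≤ Real.exp 1 := by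
    have := Real.add_one_le_exp (1 : ℝ)
    linarith
  have h6 : (8 : ℝ) ≤ Real.exp 3 := by
    have h7 : Real.exp 3 = Real.exp 1 ^ 3 := by
      rw [← Real.exp_nat_mul]; norm_num
    rw [h7]
    calc (8 : ℝ) = 2 ^ 3 := by norm_num
      _ ≤ Real.exp 1 ^ 3 := pow_le_pow_left₀ (by norm_num) h5 3
  rw [Real.exp_neg, one_div]
  exact inv_anti₀ (by norm_num) h6

/-- the sum over the second pair -/
lemma den_sur (N L : ℕ) (hN : 100 ≤ N) (hL : 60 * N ≤ L) :
    4 / (1 - Real.exp (-1 / 50)) ^ 2 +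
      ((240 * N : ℕ) : ℝ) * (Real.exp (-1 / 50) ^ L / (1 - Real.exp (-1 / 50))) ≤ 15000 := by
  have h1 : (100 : ℝ) ≤ N := by exact_mod_cast hN
  have h2 : 60 * (N : ℝ) ≤ L := by exact_mod_cast hL
  have hr := den_r
  have h3 : 1 / 51 ≤ 1 - Real.exp (-1 / 50) := by linarith
  have h3p : 0 < 1 - Real.exp (-1 / 50) := by linarith
  have h4 : 4 / (1 - Real.exp (-1 / 50)) ^ 2 ≤ 10404 := by
    rw [div_le_iff₀ (by positivity)]
    have : (1 / 51 : ℝ) ^ 2 ≤ (1 - Real.exp (-1 / 50)) ^ 2 :=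
      pow_le_pow_left₀ (by norm_num) h3 2
    nlinarith
  have h5 : Real.exp (-1 / 50) ^ L ≤ 1 / (72 / 100 * (N : ℝ) ^ 2) := by
    rw [den_pow, Real.exp_neg, one_div]
    apply inv_anti₀ (by positivity)
    have h6 : 12 / 10 * (N : ℝ) ≤ (L : ℝ) / 50 := by linarith
    have h7 := Real.quadratic_le_exp_of_nonneg (show (0 : ℝ) ≤ 12 / 10 * (N : ℝ) by positivity)
    have h8 := Real.exp_le_exp.mpr h6
    nlinarith
  have h9 : Real.exp (-1 / 50) ^ L / (1 - Real.exp (-1 / 50)) ≤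
      1 / (72 / 100 * (N : ℝ) ^ 2) * 51 := by
    rw [div_le_iff₀ h3p]
    have h10 : 0 ≤ 1 / (72 / 100 * (N : ℝ) ^ 2) := by positivity
    nlinarith
  have h11 : ((240 * N : ℕ) : ℝ) * (Real.exp (-1 / 50) ^ L / (1 - Real.exp (-1 / 50))) ≤
      170 := by
    push_cast
    calc 240 * (N : ℝ) * (Real.exp (-1 / 50) ^ L / (1 - Real.exp (-1 / 50)))
        ≤ 240 * (N : ℝ) * (1 / (72 / 100 * (N : ℝ) ^ 2) * 51) :=
          mul_le_mul_of_nonneg_left h9 (by positivity)
      _ = 17000 / N := by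
          have : (N : ℝ) ≠ 0 := by positivity
          field_simp
          ring
      _ ≤ 170 := by
          rw [div_le_iff₀ (by positivity)]
          linarith
  linarith

/-- the pointwise inequality -/
lemma den_pt (hSHR : T_SHR) {ι : Type} (P G : Finset ι) (e I : ι → ℝ) (γ s C β : ℝ)
    (hGP : G ⊆ P) (hγ : 0 < γ) (hC : 0 < C) (hs : 0 ≤ s) (hI : ∀ i ∈ P, 0 ≤ I i)
    (hb : ∀ i ∈ P, i ∉ G → Real.exp (γ * e i) ≤ I i ∨ e i < β) :
    ∑ i ∈ P, (2 / C * (Real.exp (γ * e i) - I i - Real.exp (s * β) * Real.exp ((γ - s) * e i)) -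
      (∑ j ∈ P, Real.exp (γ * e i + s * (e j - e i))) / C ^ 2) ≤
    (∑ i ∈ G, Real.exp (e i)) ^ γ := by
  classical
  have h1 := hSHR P G (fun i => Real.exp (e i)) γ s C hGP (fun i _ => Real.exp_pos _) hγ hC
  refine le_trans ?_ h1
  rw [← Finset.sum_sdiff hGP]
  have h2 : ∑ i ∈ P \ G, (2 / C * (Real.exp (γ * e i) - I i -
      Real.exp (s * β) * Real.exp ((γ - s) * e i)) -
      (∑ j ∈ P, Real.exp (γ * e i + s * (e j - e i))) / C ^ 2) ≤ 0 := by
    apply Finset.sum_nonpos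
    intro i hi
    obtain ⟨hiP, hiG⟩ := Finset.mem_sdiff.mp hi
    have h3 : 0 ≤ (∑ j ∈ P, Real.exp (γ * e i + s * (e j - e i))) / C ^ 2 := by positivity
    have h4 : Real.exp (γ * e i) - I i - Real.exp (s * β) * Real.exp ((γ - s) * e i) ≤ 0 := by
      rcases hb i hiP hiG with h | h
      · have : 0 ≤ Real.exp (s * β) * Real.exp ((γ - s) * e i) := by positivity
        linarith
      · have h5 : Real.exp (γ * e i) ≤ Real.exp (s * β) * Real.exp ((γ - s) * e i) := by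
          rw [← Real.exp_add]
          apply Real.exp_le_exp.mpr
          nlinarith
        have := hI i hiP
        linarith
    have h6 : 2 / C * (Real.exp (γ * e i) - I i -
        Real.exp (s * β) * Real.exp ((γ - s) * e i)) ≤ 0 :=
      mul_nonpos_of_nonneg_of_nonpos (by positivity) h4
    linarith
  have h7 : ∑ i ∈ G, (2 / C * (Real.exp (γ * e i) - I i -
      Real.exp (s * β) * Real.exp ((γ - s) * e i)) -
      (∑ j ∈ P, Real.exp (γ * e i + s * (e j - e i))) / C ^ 2) ≤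
      ∑ i ∈ G, Real.exp (e i) ^ γ *
        (2 / C - (∑ j ∈ P, (Real.exp (e j) / Real.exp (e i)) ^ s) / C ^ 2) := by
    apply Finset.sum_le_sum
    intro i hi
    have h8 : Real.exp (e i) ^ γ = Real.exp (γ * e i) := by
      rw [← Real.exp_mul, mul_comm]
    have h9 : Real.exp (γ * e i) * ∑ j ∈ P, (Real.exp (e j) / Real.exp (e i)) ^ s =
        ∑ j ∈ P, Real.exp (γ * e i + s * (e j - e i)) := by
      rw [Finset.mul_sum]
      apply Finset.sum_congr rfl
      intro j _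
      rw [← Real.exp_sub, ← Real.exp_mul, ← Real.exp_add]
      congr 1
      ring
    have h10 : Real.exp (e i) ^ γ *
        (2 / C - (∑ j ∈ P, (Real.exp (e j) / Real.exp (e i)) ^ s) / C ^ 2) =
        2 / C * Real.exp (γ * e i) -
          (∑ j ∈ P, Real.exp (γ * e i + s * (e j - e i))) / C ^ 2 := by
      rw [h8, ← h9]
      ring
    rw [h10]
    have h11 : 2 / C * (Real.exp (γ * e i) - I i -
        Real.exp (s * β) * Real.exp ((γ - s) * e i)) ≤ 2 / C * Real.exp (γ * e i) := by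
      apply mul_le_mul_of_nonneg_left _ (by positivity)
      have := hI i (hGP hi)
      have : 0 ≤ Real.exp (s * β) * Real.exp ((γ - s) * e i) := by positivity
      linarith
    linarith
  linarith

/-- one pair -/
lemma den_one (hEXQ : T_EXQ) (hSUR : T_SUR) (hBD1 : T_BD1) (K : PMF ℕ) (α c δ : ℝ) (ℓ q N : ℕ)
    (ν : Measure ℝ) (hRG : RG K α c δ ℓ q) (hN : 100 ≤ N) (γ : ℝ) (hγe : γ = 1 / (1 + α))
    (hγ1 : γ ≤ 51 / 100) (hMC : MC ν ℓ N γ)
    (hδ : 2 ^ 9 * Real.sqrt δ * (120 * N) ≤ 1) (a b : ℕ)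
    (hab : (a, b) ∈ PP (240 * N) (60 * N) (120 * N)) :
    Integrable (fun x : ℕ → ℝ => 2 / 30000 * (Real.exp (γ * cD ℓ x a b) -
      (toMeasurable (iid ν) {x : ℕ → ℝ | YY K ℓ q x a b < cD ℓ x a b - 60}).indicator
        (fun x => Real.exp (γ * cD ℓ x a b)) x -
      Real.exp (γ / 2 * (3 * N + 63)) * Real.exp ((γ - γ / 2) * cD ℓ x a b)) -
      (∑ j ∈ PP (240 * N) (60 * N) (120 * N),
        Real.exp (γ * cD ℓ x a b + γ / 2 * (cD ℓ x j.1 j.2 - cD ℓ x a b))) / 30000 ^ 2) (iid ν) ∧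
    Real.exp (-1) / 30000 ≤ ∫ x : ℕ → ℝ, (2 / 30000 * (Real.exp (γ * cD ℓ x a b) -
      (toMeasurable (iid ν) {x : ℕ → ℝ | YY K ℓ q x a b < cD ℓ x a b - 60}).indicator
        (fun x => Real.exp (γ * cD ℓ x a b)) x -
      Real.exp (γ / 2 * (3 * N + 63)) * Real.exp ((γ - γ / 2) * cD ℓ x a b)) -
      (∑ j ∈ PP (240 * N) (60 * N) (120 * N),
        Real.exp (γ * cD ℓ x a b + γ / 2 * (cD ℓ x j.1 j.2 - cD ℓ x a b))) / 30000 ^ 2)
        ∂(iid ν) := by
  have := hMC.prob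
  have hab1 := hab
  simp only [PP, Finset.mem_filter, Finset.mem_product, Finset.mem_range] at hab1
  obtain ⟨⟨ha1, hb1⟩, h60, h120⟩ := hab1
  have hle : a ≤ b := by omega
  have hL1 : 60 * N ≤ b + 1 - a := by omega
  have hL2 : b + 1 - a ≤ 120 * N := by omega
  obtain ⟨hE1, hE2⟩ := hEXQ ν hMC.exp ℓ a b hle
  obtain ⟨hA0, hi1, he1⟩ := hE1 γ
  obtain ⟨hA0', hi2, he2⟩ := hE1 (γ - γ / 2)
  have hss : γ - γ / 2 = γ / 2 := by ring
  set r : ℝ := Real.exp (-1 / 50) with hr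
  have hr0 : 0 < r := Real.exp_pos _
  have hr1 : r < 1 := lt_of_le_of_lt den_r (by norm_num)
  have hA3 : AA ν ℓ (γ - γ / 2) ≤ r * AA ν ℓ γ := by rw [hss]; exact hMC.a3
  have hA4 : AA ν ℓ (γ / 2) ≤ r :=
    le_trans hMC.a3 (mul_le_of_le_one_right hr0.le hMC.a1)
  have hE3 := hE2 γ (γ / 2) r hr0 hr1.le hA3 hA4
  set A : ℝ := AA ν ℓ γ with hA
  set L : ℕ := b + 1 - a with hL
  have hPle : ∀ j ∈ PP (240 * N) (60 * N) (120 * N), j.1 ≤ j.2 := by
    intro j hj
    simp only [PP, Finset.mem_filter, Finset.mem_product, Finset.mem_range] at hj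
    omega
  -- the bad set
  set B : Set (ℕ → ℝ) :=
    toMeasurable (iid ν) {x : ℕ → ℝ | YY K ℓ q x a b < cD ℓ x a b - 60} with hB
  have hBm : MeasurableSet B := measurableSet_toMeasurable _ _
  have hBi : Integrable (B.indicator (fun x : ℕ → ℝ => Real.exp (γ * cD ℓ x a b))) (iid ν) :=
    hi1.indicator hBm
  have hBe : ∫ x, B.indicator (fun x : ℕ → ℝ => Real.exp (γ * cD ℓ x a b)) x ∂(iid ν) ≤
      A ^ L / 8 := by
    rw [integral_indicator hBm, hB, Measure.restrict_toMeasurable (measure_ne_top _ _)]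
    have h := hBD1 K α c δ ℓ q N ν hRG (by omega) (by rw [← hγe]; exact hMC) a b (by omega)
      (by omega) hδ
    rw [← hγe] at h
    exact h
  -- the integrals over the second pair
  have hji : ∀ j ∈ PP (240 * N) (60 * N) (120 * N), Integrable (fun x : ℕ → ℝ =>
      Real.exp (γ * cD ℓ x a b + γ / 2 * (cD ℓ x j.1 j.2 - cD ℓ x a b))) (iid ν) := by
    intro j hj
    exact (hE3 j.1 j.2 (hPle j hj)).1
  have hjs : Integrable (fun x : ℕ → ℝ => ∑ j ∈ PP (240 * N) (60 * N) (120 * N),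
      Real.exp (γ * cD ℓ x a b + γ / 2 * (cD ℓ x j.1 j.2 - cD ℓ x a b))) (iid ν) :=
    integrable_finsetSum _ hji
  have hjb : ∫ x : ℕ → ℝ, (∑ j ∈ PP (240 * N) (60 * N) (120 * N),
      Real.exp (γ * cD ℓ x a b + γ / 2 * (cD ℓ x j.1 j.2 - cD ℓ x a b))) ∂(iid ν) ≤
      A ^ L * 15000 := by
    rw [integral_finsetSum _ hji]
    calc ∑ j ∈ PP (240 * N) (60 * N) (120 * N), ∫ x : ℕ → ℝ,
          Real.exp (γ * cD ℓ x a b + γ / 2 * (cD ℓ x j.1 j.2 - cD ℓ x a b)) ∂(iid ν)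
        ≤ ∑ j ∈ PP (240 * N) (60 * N) (120 * N), A ^ L * r ^ sd a b j.1 j.2 := by
          apply Finset.sum_le_sum
          intro j hj
          exact (hE3 j.1 j.2 (hPle j hj)).2
      _ = A ^ L * ∑ j ∈ PP (240 * N) (60 * N) (120 * N), r ^ sd a b j.1 j.2 := by
          rw [Finset.mul_sum]
      _ ≤ A ^ L * ∑ j ∈ (Finset.range (240 * N) ×ˢ Finset.range (240 * N)).filter
            (fun p => p.1 ≤ p.2), r ^ sd a b j.1 j.2 := by
          apply mul_le_mul_of_nonneg_left _ (pow_nonneg hA0.le _)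
          apply Finset.sum_le_sum_of_subset_of_nonneg
          · intro j hj
            have h1 := hPle j hj
            have h2 : j ∈ Finset.range (240 * N) ×ˢ Finset.range (240 * N) :=
              (Finset.mem_filter.mp hj).1
            exact Finset.mem_filter.mpr ⟨h2, h1⟩
          · intro j _ _
            exact pow_nonneg hr0.le _
      _ ≤ A ^ L * 15000 := by
          apply mul_le_mul_of_nonneg_left _ (pow_nonneg hA0.le _)
          exact le_trans (hSUR r (240 * N) a b hr0 hr1 hle hb1) (den_sur N L hN hL1)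
  have hbad2 : Real.exp (γ / 2 * (3 * N + 63)) * AA ν ℓ (γ - γ / 2) ^ L ≤ A ^ L / 8 := by
    calc Real.exp (γ / 2 * (3 * N + 63)) * AA ν ℓ (γ - γ / 2) ^ L
        ≤ Real.exp (γ / 2 * (3 * N + 63)) * (r * A) ^ L :=
          mul_le_mul_of_nonneg_left (pow_le_pow_left₀ hA0'.le hA3 L) (Real.exp_pos _).le
      _ = (Real.exp (γ / 2 * (3 * N + 63)) * r ^ L) * A ^ L := by rw [mul_pow]; ring
      _ ≤ 1 / 8 * A ^ L :=
          mul_le_mul_of_nonneg_right (den_bad N L (γ / 2) hN hL1 (by linarith))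
            (pow_nonneg hA0.le _)
      _ = A ^ L / 8 := by ring
  have hAL : Real.exp (-1) ≤ A ^ L := by
    have hN0 : (0 : ℝ) < N := by
      have : (100 : ℝ) ≤ N := by exact_mod_cast hN
      linarith
    calc Real.exp (-1) ≤ Real.exp (-1 / (120 * N)) ^ L := by
          rw [← Real.exp_nat_mul]
          apply Real.exp_le_exp.mpr
          have h1 : (L : ℝ) ≤ 120 * N := by exact_mod_cast hL2
          have h2 : (L : ℝ) * (-1 / (120 * N)) = -(L / (120 * N)) := by ring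
          rw [h2]
          have h3 : (L : ℝ) / (120 * N) ≤ 1 := by
            rw [div_le_one (by positivity)]
            exact h1
          linarith
      _ ≤ A ^ L := pow_le_pow_left₀ (Real.exp_pos _).le hMC.a2 L
  have hI1 : Integrable (fun x : ℕ → ℝ => Real.exp (γ * cD ℓ x a b) -
      B.indicator (fun x => Real.exp (γ * cD ℓ x a b)) x -
      Real.exp (γ / 2 * (3 * N + 63)) * Real.exp ((γ - γ / 2) * cD ℓ x a b)) (iid ν) :=
    (hi1.sub hBi).sub (hi2.const_mul _)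
  refine ⟨(hI1.const_mul _).sub (hjs.div_const _), ?_⟩
  have hI2 : ∫ x : ℕ → ℝ, (Real.exp (γ * cD ℓ x a b) -
      B.indicator (fun x => Real.exp (γ * cD ℓ x a b)) x -
      Real.exp (γ / 2 * (3 * N + 63)) * Real.exp ((γ - γ / 2) * cD ℓ x a b)) ∂(iid ν) =
      ∫ x : ℕ → ℝ, (Real.exp (γ * cD ℓ x a b) -
        B.indicator (fun x => Real.exp (γ * cD ℓ x a b)) x) ∂(iid ν) -
      ∫ x : ℕ → ℝ, Real.exp (γ / 2 * (3 * N + 63)) *
        Real.exp ((γ - γ / 2) * cD ℓ x a b) ∂(iid ν) :=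
    integral_sub (hi1.sub hBi) (hi2.const_mul _)
  rw [integral_sub (hI1.const_mul _) (hjs.div_const _), integral_const_mul, integral_div,
    hI2, integral_sub hi1 hBi, integral_const_mul, he1, he2]
  have h1 : (∫ x : ℕ → ℝ, (∑ j ∈ PP (240 * N) (60 * N) (120 * N),
      Real.exp (γ * cD ℓ x a b + γ / 2 * (cD ℓ x j.1 j.2 - cD ℓ x a b))) ∂(iid ν)) / 30000 ^ 2 ≤
      A ^ L * 15000 / 30000 ^ 2 := by
    apply div_le_div_of_nonneg_right hjb (by norm_num)
  linarith

theorem pf_DEN (hEXQ : T_EXQ) (hSUR : T_SUR) (hSHR : T_SHR) (hBD1 : T_BD1) (hW1D : T_W1D) :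
    T_DEN := by
  classical
  refine ⟨100, by norm_num, ?_⟩
  intro K α c δ ℓ q N ν hRG hN hMC hδ
  have := hMC.prob
  obtain ⟨γ, hγe⟩ : ∃ γ : ℝ, γ = 1 / (1 + α) := ⟨_, rfl⟩
  have hα1 : α ≤ 1 := hRG.α1
  have hα2 : 1 - 1 / 2 ^ 20 ≤ α := by
    have h1 := hRG.α0
    have h2 := hRG.δ1
    linarith
  have hα3 : (0 : ℝ) < 1 + α := by
    have : (1 : ℝ) / 2 ^ 20 ≤ 1 := by norm_num
    linarith
  have hγ0 : 0 < γ := by rw [hγe]; positivity
  have hγ1 : γ ≤ 51 / 100 := by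
    rw [hγe, div_le_iff₀ hα3]
    norm_num at hα2
    linarith
  rw [← hγe] at hMC ⊢
  have hN1 : 1 ≤ N := le_trans (by norm_num) hN
  obtain ⟨hwm, -, -, -, hwx⟩ := hW1D K α c δ ℓ q hRG (240 * N) (60 * N) (120 * N) (3 * N)
    (by omega) (by push_cast; exact hδ)
  set P := PP (240 * N) (60 * N) (120 * N) with hP
  set Z : ℕ × ℕ → (ℕ → ℝ) → ℝ := fun i x => 2 / 30000 * (Real.exp (γ * cD ℓ x i.1 i.2) -
      (toMeasurable (iid ν) {x : ℕ → ℝ | YY K ℓ q x i.1 i.2 < cD ℓ x i.1 i.2 - 60}).indicator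
        (fun x => Real.exp (γ * cD ℓ x i.1 i.2)) x -
      Real.exp (γ / 2 * (3 * N + 63)) * Real.exp ((γ - γ / 2) * cD ℓ x i.1 i.2)) -
      (∑ j ∈ P, Real.exp (γ * cD ℓ x i.1 i.2 +
        γ / 2 * (cD ℓ x j.1 j.2 - cD ℓ x i.1 i.2))) / 30000 ^ 2 with hZ
  have hone : ∀ i ∈ P, Integrable (Z i) (iid ν) ∧ Real.exp (-1) / 30000 ≤
      ∫ x, Z i x ∂(iid ν) := by
    intro i hi
    exact den_one hEXQ hSUR hBD1 K α c δ ℓ q N ν hRG hN γ hγe hγ1 hMC hδ i.1 i.2 hi
  -- the form of w1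
  have hw : ∀ x, w1 K ℓ q (240 * N) (60 * N) (120 * N) (3 * N) x =
      Real.exp (-63) * ∑ p ∈ P.filter (gd K ℓ q (3 * N) x), Real.exp (cD ℓ x p.1 p.2) := by
    intro x
    unfold w1
    rw [Finset.sum_filter, Finset.mul_sum]
    apply Finset.sum_congr rfl
    intro p _
    by_cases hg : gd K ℓ q (3 * N) x p
    · rw [if_pos hg, if_pos hg, ← Real.exp_add]
      congr 1
      ring
    · rw [if_neg hg, if_neg hg, mul_zero]
  have hlow : ∀ x, Real.exp (-63) * ∑ i ∈ P, Z i x ≤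
      w1 K ℓ q (240 * N) (60 * N) (120 * N) (3 * N) x ^ γ := by
    intro x
    have hS0 : 0 ≤ ∑ p ∈ P.filter (gd K ℓ q (3 * N) x), Real.exp (cD ℓ x p.1 p.2) :=
      Finset.sum_nonneg fun _ _ => (Real.exp_pos _).le
    rw [hw x, Real.mul_rpow (Real.exp_pos _).le hS0]
    have h1 : Real.exp (-63) ≤ Real.exp (-63) ^ γ := by
      rw [← Real.exp_mul]
      apply Real.exp_le_exp.mpr
      linarith
    have h2 := den_pt hSHR P (P.filter (gd K ℓ q (3 * N) x)) (fun i => cD ℓ x i.1 i.2)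
      (fun i => (toMeasurable (iid ν)
        {x : ℕ → ℝ | YY K ℓ q x i.1 i.2 < cD ℓ x i.1 i.2 - 60}).indicator
        (fun x => Real.exp (γ * cD ℓ x i.1 i.2)) x) γ (γ / 2) 30000 (3 * N + 63)
      (Finset.filter_subset _ _) hγ0 (by norm_num) (by linarith) (by
        intro i _
        exact Set.indicator_nonneg (fun _ _ => (Real.exp_pos _).le) _) (by
        intro i hi hiG
        have h3 : ¬ gd K ℓ q (3 * N) x i := fun h => hiG (Finset.mem_filter.mpr ⟨hi, h⟩)
        unfold gd at h3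
        by_cases h4 : YY K ℓ q x i.1 i.2 < cD ℓ x i.1 i.2 - 60
        · left
          have h5 : x ∈ toMeasurable (iid ν)
              {x : ℕ → ℝ | YY K ℓ q x i.1 i.2 < cD ℓ x i.1 i.2 - 60} :=
            subset_toMeasurable _ _ h4
          rw [Set.indicator_of_mem h5]
        · right
          by_contra h5
          exact h3 ⟨not_lt.mp h4, not_lt.mp h5⟩)
    calc Real.exp (-63) * ∑ i ∈ P, Z i x
        ≤ Real.exp (-63) *
          (∑ i ∈ P.filter (gd K ℓ q (3 * N) x), Real.exp (cD ℓ x i.1 i.2)) ^ γ :=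
          mul_le_mul_of_nonneg_left h2 (Real.exp_pos _).le
      _ ≤ Real.exp (-63) ^ γ *
          (∑ i ∈ P.filter (gd K ℓ q (3 * N) x), Real.exp (cD ℓ x i.1 i.2)) ^ γ :=
          mul_le_mul_of_nonneg_right h1 (Real.rpow_nonneg hS0 _)
  -- integrability
  have hmaj : Integrable (fun x : ℕ → ℝ => 1 + ∑ p ∈ P, Real.exp (1 * cD ℓ x p.1 p.2))
      (iid ν) := by
    apply (integrable_const _).add
    apply integrable_finsetSum
    intro p hp
    have hple : p.1 ≤ p.2 := by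
      have hp1 := (Finset.mem_filter.mp hp).2
      omega
    exact ((hEXQ ν hMC.exp ℓ p.1 p.2 hple).1 1).2.1
  have hint : Integrable (fun x => w1 K ℓ q (240 * N) (60 * N) (120 * N) (3 * N) x ^ γ)
      (iid ν) := by
    refine hmaj.mono' (hwm.pow_const γ).aestronglyMeasurable ?_
    refine Filter.Eventually.of_forall fun x => ?_
    have hw0 := (hwx x).1
    rw [Real.norm_of_nonneg (Real.rpow_nonneg hw0 _)]
    have h1 : w1 K ℓ q (240 * N) (60 * N) (120 * N) (3 * N) x ^ γ ≤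
        1 + w1 K ℓ q (240 * N) (60 * N) (120 * N) (3 * N) x := by
      rcases le_total (w1 K ℓ q (240 * N) (60 * N) (120 * N) (3 * N) x) 1 with h | h
      · have := Real.rpow_le_one hw0 h hγ0.le
        linarith
      · have h2 := Real.rpow_le_rpow_of_exponent_le h (show γ ≤ 1 by linarith)
        rw [Real.rpow_one] at h2
        linarith
    refine le_trans h1 ?_
    have h3 : w1 K ℓ q (240 * N) (60 * N) (120 * N) (3 * N) x ≤
        ∑ p ∈ P, Real.exp (1 * cD ℓ x p.1 p.2) := by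
      unfold w1
      apply Finset.sum_le_sum
      intro p _
      rw [one_mul]
      split_ifs
      · apply Real.exp_le_exp.mpr
        linarith
      · exact (Real.exp_pos _).le
    linarith
  have hZi : Integrable (fun x => ∑ i ∈ P, Z i x) (iid ν) :=
    integrable_finsetSum _ fun i hi => (hone i hi).1
  have hfin : Real.exp (-63) * ∑ i ∈ P, ∫ x, Z i x ∂(iid ν) ≤
      ∫ x, w1 K ℓ q (240 * N) (60 * N) (120 * N) (3 * N) x ^ γ ∂(iid ν) := by
    rw [← integral_finsetSum _ (fun i hi => (hone i hi).1), ← integral_const_mul]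
    exact integral_mono (hZi.const_mul _) hint hlow
  refine le_trans ?_ hfin
  have hcard := den_card N hN1
  rw [← hP] at hcard
  have hsum : (P.card : ℝ) * (Real.exp (-1) / 30000) ≤ ∑ i ∈ P, ∫ x, Z i x ∂(iid ν) := by
    rw [← nsmul_eq_mul]
    exact Finset.card_nsmul_le_sum _ _ _ fun i hi => (hone i hi).2
  have h64 : Real.exp (-70) ≤ Real.exp (-63) * (Real.exp (-1) * (7200 / 30000)) := by
    have e1 : Real.exp (-70) = Real.exp (-63) * (Real.exp (-1) * Real.exp (-6)) := by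
      rw [← Real.exp_add, ← Real.exp_add]
      norm_num
    rw [e1]
    apply mul_le_mul_of_nonneg_left _ (Real.exp_pos _).le
    apply mul_le_mul_of_nonneg_left _ (Real.exp_pos _).le
    have e2 := Real.add_one_le_exp (6 : ℝ)
    rw [Real.exp_neg]
    have e3 : (Real.exp 6)⁻¹ ≤ (7 : ℝ)⁻¹ := inv_anti₀ (by norm_num) (by linarith)
    refine le_trans e3 ?_
    norm_num
  have hN2 : (0 : ℝ) ≤ (N : ℝ) ^ 2 := by positivity
  calc Real.exp (-70) * (N : ℝ) ^ 2
      ≤ Real.exp (-63) * (Real.exp (-1) * (7200 / 30000)) * (N : ℝ) ^ 2 :=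
        mul_le_mul_of_nonneg_right h64 hN2
    _ = Real.exp (-63) * (7200 * (N : ℝ) ^ 2 * (Real.exp (-1) / 30000)) := by ring
    _ ≤ Real.exp (-63) * ((P.card : ℝ) * (Real.exp (-1) / 30000)) := by
        apply mul_le_mul_of_nonneg_left _ (Real.exp_pos _).le
        apply mul_le_mul_of_nonneg_right hcard (by positivity)
    _ ≤ Real.exp (-63) * ∑ i ∈ P, ∫ x, Z i x ∂(iid ν) :=
        mul_le_mul_of_nonneg_left hsum (Real.exp_pos _).le

end Pool.Agent.H46.SLN
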